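import Mathlib

/-!
# Mineka's inequality for polynomials with nonnegative coefficients (helper39)

`n1 p`: the sum of the moduli of the coefficients.

* `n1_binom`: `n1 ((1 - X ^ h) * (1 + X ^ h) ^ j) ≤ 2 * choose j (j / 2)`; `choose_half`: at most `2 ^ j / √(j + 1)`;
* `split`: a polynomial with nonnegative coefficients which overlaps its shift by `h` is
  `ρ * (1 + X ^ h) / 2 + σ`;
* **`mineka`**: `n1 ((1 - X ^ h) * ∏ v_i) ≤ 2 / √(c (K + 1)) * ∏ v_i(1)` for `K` factors whose overlap with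
  their shift by `h` is at least `c` times their mass;
* `ov_of_window`: the overlap from a lower bound on a window; `mineka_coeff`: one more factor: pointwise bound.
-/

set_option autoImplicit false

noncomputable section

open Polynomial Finset

namespace SLOW

/-- the sum of the moduli of the coefficients -/
def n1 (p : ℝ[X]) : ℝ := ∑ i ∈ p.support, |p.coeff i|

theorem n1_nonneg (p : ℝ[X]) : 0 ≤ n1 p := sum_nonneg fun _ _ => abs_nonneg _

theorem n1_eq {p : ℝ[X]} {s : Finset ℕ} (h : p.support ⊆ s) : n1 p = ∑ i ∈ s, |p.coeff i| := by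
  unfold n1
  refine sum_subset h fun i _ hi => ?_
  rw [notMem_support_iff.1 hi, abs_zero]

theorem n1_zero : n1 0 = 0 := by simp [n1]

theorem n1_add (p q : ℝ[X]) : n1 (p + q) ≤ n1 p + n1 q := by
  rw [n1_eq (s := p.support ∪ q.support) support_add, n1_eq (p := p) subset_union_left,
    n1_eq (p := q) (s := p.support ∪ q.support) subset_union_right, ← sum_add_distrib]
  exact sum_le_sum fun i _ => by rw [coeff_add]; exact abs_add_le _ _

theorem n1_sum {ι : Type*} (s : Finset ι) (f : ι → ℝ[X]) : n1 (∑ i ∈ s, f i) ≤ ∑ i ∈ s, n1 (f i) := by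
  classical
  induction s using Finset.induction_on with
  | empty => simp [n1_zero]
  | insert a s ha ih =>
    rw [sum_insert ha, sum_insert ha]
    exact (n1_add _ _).trans (by linarith)

theorem n1_mono (a : ℝ) (i : ℕ) (q : ℝ[X]) : n1 (monomial i a * q) ≤ |a| * n1 q := by
  have h : (monomial i a * q).support ⊆ q.support.map (addLeftEmbedding i) := by
    intro j hj
    rw [mem_support_iff] at hj
    rw [mem_map]
    by_cases hi : i ≤ j
    · refine ⟨j - i, ?_, by simp [addLeftEmbedding]; omega⟩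
      rw [mem_support_iff]
      intro h0
      apply hj
      obtain ⟨d, rfl⟩ := Nat.exists_eq_add_of_le hi
      rw [add_comm i d, coeff_monomial_mul]
      rw [show i + d - i = d by omega] at h0
      rw [h0, mul_zero]
    · exfalso
      apply hj
      rw [← C_mul_X_pow_eq_monomial, mul_assoc, coeff_C_mul, coeff_X_pow_mul', if_neg hi, mul_zero]
  rw [n1_eq h, sum_map, n1, mul_sum]
  refine sum_le_sum fun j _ => le_of_eq ?_
  show |(monomial i a * q).coeff (i + j)| = _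
  rw [add_comm i j, coeff_monomial_mul, abs_mul]

theorem n1_mul (p q : ℝ[X]) : n1 (p * q) ≤ n1 p * n1 q := by
  conv_lhs => rw [p.as_sum_support, sum_mul]
  refine (n1_sum _ _).trans ?_
  rw [n1, sum_mul]
  exact sum_le_sum fun i _ => n1_mono _ _ _

/-- nonnegative coefficients -/
def Nn (p : ℝ[X]) : Prop := ∀ i, 0 ≤ p.coeff i

theorem Nn.n1 {p : ℝ[X]} (h : Nn p) : n1 p = p.eval 1 := by
  unfold SLOW.n1
  rw [eval_eq_sum, sum_def]
  refine sum_congr rfl fun i _ => ?_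
  rw [abs_of_nonneg (h i), one_pow, mul_one]

theorem Nn.add {p q : ℝ[X]} (h : Nn p) (h' : Nn q) : Nn (p + q) := fun i => by
  rw [coeff_add]
  exact add_nonneg (h i) (h' i)

theorem Nn.mul {p q : ℝ[X]} (h : Nn p) (h' : Nn q) : Nn (p * q) := fun i => by
  rw [coeff_mul]
  exact sum_nonneg fun x _ => mul_nonneg (h _) (h' _)

theorem Nn.prod {ι : Type*} {s : Finset ι} {v : ι → ℝ[X]} (h : ∀ i ∈ s, Nn (v i)) : Nn (∏ i ∈ s, v i) := by
  classical
  induction s using Finset.induction_on with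
  | empty =>
    rw [prod_empty]
    intro i
    rw [coeff_one]
    split_ifs <;> norm_num
  | insert a s ha ih =>
    rw [prod_insert ha]
    exact (h a (mem_insert_self a s)).mul (ih fun i hi => h i (mem_insert_of_mem hi))

theorem Nn.eval {p : ℝ[X]} (h : Nn p) : 0 ≤ p.eval 1 := by
  rw [← h.n1]
  exact n1_nonneg p

/-! ### the binomial -/

theorem n1_expand (h : ℕ) (p : ℝ[X]) : n1 (expand ℝ h p) ≤ n1 p := by
  conv_lhs => rw [p.as_sum_support, map_sum]
  refine (n1_sum _ _).trans (sum_le_sum fun i _ => ?_)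
  rw [expand_monomial]
  have h2 := n1_mono (p.coeff i) (i * h) 1
  rw [mul_one] at h2
  have h1 : n1 1 = 1 := by
    have : Nn (1 : ℝ[X]) := fun i => by
      rw [coeff_one]
      split_ifs <;> norm_num
    rw [this.n1, eval_one]
  rwa [h1, mul_one] at h2

/-- the row `j` of the triangle, shifted by one -/
def g (j : ℕ) : ℕ → ℝ
  | 0 => 0
  | i + 1 => (j.choose i : ℝ)

theorem coeff_bin (j i : ℕ) : ((1 - X) * (1 + X) ^ j : ℝ[X]).coeff i = g j (i + 1) - g j i := by
  rw [sub_mul, one_mul, coeff_sub, coeff_one_add_X_pow]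
  cases i with
  | zero => simp [g]
  | succ i =>
    rw [coeff_X_mul, coeff_one_add_X_pow]
    rfl

theorem g_up {j i : ℕ} (h : i < j / 2 + 1) : g j i ≤ g j (i + 1) := by
  cases i with
  | zero => simp [g]
  | succ i =>
    show (j.choose i : ℝ) ≤ j.choose (i + 1)
    exact_mod_cast Nat.choose_le_succ_of_lt_half_left (by omega)

theorem g_dn {j i : ℕ} (h : j / 2 + 1 ≤ i) : g j (i + 1) ≤ g j i := by
  cases i with
  | zero => omega
  | succ i =>
    show (j.choose (i + 1) : ℝ) ≤ j.choose i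
    rcases Nat.lt_or_ge i j with hi | hi
    · have e1 : j.choose (i + 1) = j.choose (j - (i + 1)) := (Nat.choose_symm (by omega)).symm
      have e2 : j.choose i = j.choose (j - (i + 1) + 1) := by
        rw [show j - (i + 1) + 1 = j - i by omega]
        exact (Nat.choose_symm (by omega)).symm
      rcases Nat.lt_or_ge (j - (i + 1)) (j / 2) with h3 | h3
      · rw [e1, e2]
        exact_mod_cast Nat.choose_le_succ_of_lt_half_left h3
      · rw [e1, show j - (i + 1) = i by omega]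
    · rw [Nat.choose_eq_zero_of_lt (show j < i + 1 by omega)]
      simp

theorem n1_bin (j : ℕ) : n1 ((1 - X) * (1 + X) ^ j : ℝ[X]) ≤ 2 * (j.choose (j / 2) : ℝ) := by
  have hs : ((1 - X) * (1 + X) ^ j : ℝ[X]).support ⊆ range (j / 2 + 1 + (j - j / 2 + 1)) := by
    intro i hi
    rw [mem_support_iff, coeff_bin] at hi
    rw [mem_range]
    by_contra hc
    apply hi
    cases i with
    | zero => omega
    | succ i =>
      show (j.choose (i + 1) : ℝ) - j.choose i = 0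
      rw [Nat.choose_eq_zero_of_lt (show j < i + 1 by omega), Nat.choose_eq_zero_of_lt (show j < i by omega)]
      simp
  rw [n1_eq hs, sum_range_add]
  have h1 : ∑ i ∈ range (j / 2 + 1), |((1 - X) * (1 + X) ^ j : ℝ[X]).coeff i| = j.choose (j / 2) := by
    have e : ∀ i ∈ range (j / 2 + 1), |((1 - X) * (1 + X) ^ j : ℝ[X]).coeff i| = g j (i + 1) - g j i := by
      intro i hi
      rw [coeff_bin, abs_of_nonneg (sub_nonneg.2 (g_up (mem_range.1 hi)))]
    rw [sum_congr rfl e, sum_range_sub]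
    show (j.choose (j / 2) : ℝ) - 0 = _
    rw [sub_zero]
  have h2 : ∑ i ∈ range (j - j / 2 + 1), |((1 - X) * (1 + X) ^ j : ℝ[X]).coeff (j / 2 + 1 + i)| =
      j.choose (j / 2) := by
    have e : ∀ i ∈ range (j - j / 2 + 1), |((1 - X) * (1 + X) ^ j : ℝ[X]).coeff (j / 2 + 1 + i)| =
        g j (j / 2 + 1 + i) - g j (j / 2 + 1 + (i + 1)) := by
      intro i _
      rw [coeff_bin, abs_of_nonpos (sub_nonpos.2 (g_dn (by omega)))]
      rw [show j / 2 + 1 + i + 1 = j / 2 + 1 + (i + 1) by ring]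
      ring
    rw [sum_congr rfl e, sum_range_sub']
    show (j.choose (j / 2) : ℝ) - g j (j / 2 + 1 + (j - j / 2 + 1)) = _
    rw [show j / 2 + 1 + (j - j / 2 + 1) = j + 1 + 1 by omega]
    show (j.choose (j / 2) : ℝ) - (j.choose (j + 1) : ℝ) = _
    rw [Nat.choose_eq_zero_of_lt (show j < j + 1 by omega)]
    simp
  rw [h1, h2]
  linarith

theorem cb_le (k : ℕ) : (2 * k + 1) * k.centralBinom ^ 2 ≤ 16 ^ k := by
  induction k with
  | zero => simp
  | succ k ih =>
    have h := Nat.succ_mul_centralBinom_succ k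
    have h2 : (k + 1) ^ 2 * ((2 * (k + 1) + 1) * (k + 1).centralBinom ^ 2) =
        (2 * k + 3) * (2 * (2 * k + 1) * k.centralBinom) ^ 2 := by
      rw [← h]
      ring
    have h3 : (2 * k + 3) * (2 * (2 * k + 1) * k.centralBinom) ^ 2 =
        4 * ((2 * k + 3) * (2 * k + 1)) * ((2 * k + 1) * k.centralBinom ^ 2) := by ring
    have h4 : (k + 1) ^ 2 * ((2 * (k + 1) + 1) * (k + 1).centralBinom ^ 2) ≤ (k + 1) ^ 2 * 16 ^ (k + 1) := by
      rw [h2, h3]
      calc 4 * ((2 * k + 3) * (2 * k + 1)) * ((2 * k + 1) * k.centralBinom ^ 2)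
          ≤ 4 * (4 * (k + 1) ^ 2) * 16 ^ k := Nat.mul_le_mul (by nlinarith) ih
        _ = (k + 1) ^ 2 * 16 ^ (k + 1) := by ring
    exact Nat.le_of_mul_le_mul_left h4 (by positivity)

theorem choose_sq (j : ℕ) : (j + 1) * (j.choose (j / 2)) ^ 2 ≤ 4 ^ j := by
  rcases Nat.even_or_odd' j with ⟨k, rfl | rfl⟩
  · have h := cb_le k
    rw [Nat.centralBinom] at h
    rw [show 2 * k / 2 = k by omega, pow_mul]
    norm_num at h ⊢
    exact h
  · have h := cb_le (k + 1)
    have e : (k + 1).centralBinom = 2 * (2 * k + 1).choose k := by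
      rw [Nat.centralBinom, show 2 * (k + 1) = 2 * k + 1 + 1 by ring, Nat.choose_succ_succ,
        ← Nat.choose_symm_half k]
      ring
    rw [e] at h
    rw [show (2 * k + 1) / 2 = k by omega]
    have h2 : 4 * ((2 * k + 1 + 1) * (2 * k + 1).choose k ^ 2) ≤ 4 * 4 ^ (2 * k + 1) := by
      calc 4 * ((2 * k + 1 + 1) * (2 * k + 1).choose k ^ 2)
          = (2 * k + 2) * (2 * (2 * k + 1).choose k) ^ 2 := by ring
        _ ≤ (2 * (k + 1) + 1) * (2 * (2 * k + 1).choose k) ^ 2 := Nat.mul_le_mul_right _ (by omega)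
        _ ≤ 16 ^ (k + 1) := h
        _ = 4 * 4 ^ (2 * k + 1) := by
          rw [← pow_succ', show (16 : ℕ) = 4 ^ 2 by norm_num, ← pow_mul]
          congr 1
          
    exact Nat.le_of_mul_le_mul_left h2 (by norm_num)

/-- **the middle binomial coefficient** -/
theorem choose_half (j : ℕ) : (j.choose (j / 2) : ℝ) ≤ 2 ^ j / √(j + 1) := by
  have h : (((j + 1) * (j.choose (j / 2)) ^ 2 : ℕ) : ℝ) ≤ ((4 ^ j : ℕ) : ℝ) := by exact_mod_cast choose_sq j
  push_cast at h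
  have h0 : (0 : ℝ) < j + 1 := by positivity
  rw [le_div_iff₀ (Real.sqrt_pos.2 h0)]
  refine le_of_sq_le_sq ?_ (by positivity)
  rw [mul_pow, Real.sq_sqrt h0.le, ← pow_mul, mul_comm j 2, pow_mul]
  norm_num
  linarith

/-- `n1` of the binomial with steps `h` -/
theorem n1_binom (h j : ℕ) : n1 ((1 - X ^ h) * (C (1 / 2) * (1 + X ^ h)) ^ j : ℝ[X]) ≤ 2 / √(j + 1) := by
  have e : ((1 - X ^ h) * (C (1 / 2) * (1 + X ^ h)) ^ j : ℝ[X]) =
      C ((1 / 2) ^ j) * expand ℝ h ((1 - X) * (1 + X) ^ j) := by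
    rw [mul_pow, ← C_pow]
    simp only [map_mul, map_sub, map_add, map_pow, map_one, expand_X]
    ring
  have h0 : (0 : ℝ) < j + 1 := by positivity
  have hs := Real.sqrt_pos.2 h0
  rw [e, ← monomial_zero_left]
  refine (n1_mono _ 0 _).trans ?_
  rw [abs_of_nonneg (by positivity)]
  calc (1 / 2 : ℝ) ^ j * n1 (expand ℝ h ((1 - X) * (1 + X) ^ j))
      ≤ (1 / 2 : ℝ) ^ j * (2 * (2 ^ j / √(j + 1))) := by
        refine mul_le_mul_of_nonneg_left ?_ (by positivity)
        exact (n1_expand _ _).trans ((n1_bin j).trans (by linarith [choose_half j]))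
    _ = 2 / √(j + 1) := by
        rw [one_div, inv_pow]
        field_simp

/-! ### the overlap -/

/-- the overlap of `v` with its shift by `h` -/
def ov (v : ℝ[X]) (h : ℕ) : ℝ := ∑ b ∈ v.support, min (v.coeff b) (v.coeff (b + h))

theorem Nn.ov_nonneg {v : ℝ[X]} (hv : Nn v) (h : ℕ) : 0 ≤ ov v h :=
  sum_nonneg fun b _ => le_min (hv b) (hv _)

theorem Nn.ov_le {v : ℝ[X]} (hv : Nn v) (h : ℕ) : ov v h ≤ v.eval 1 := by
  rw [← hv.n1]
  unfold ov SLOW.n1
  exact sum_le_sum fun b _ => (min_le_left _ _).trans (le_abs_self _)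

/-- **the splitting** -/
theorem split {v : ℝ[X]} (hv : Nn v) {h : ℕ} {c : ℝ} (hc : 0 ≤ c) (hov : c * v.eval 1 ≤ ov v h) :
    ∃ ρ σ : ℝ[X], Nn ρ ∧ Nn σ ∧ v = ρ * (C (1 / 2) * (1 + X ^ h)) + σ ∧ ρ.eval 1 = c * v.eval 1 ∧
      σ.eval 1 = (1 - c) * v.eval 1 := by
  set m : ℝ[X] := ∑ b ∈ v.support, monomial b (min (v.coeff b) (v.coeff (b + h))) with hm
  have hcm : ∀ b, m.coeff b = min (v.coeff b) (v.coeff (b + h)) := by
    intro b
    rw [hm, finsetSum_coeff]
    simp only [coeff_monomial]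
    rw [sum_ite_eq' v.support b]
    split_ifs with hb
    · rfl
    · rw [notMem_support_iff.1 hb]
      exact (min_eq_left (hv _)).symm
  have hmn : Nn m := fun b => by
    rw [hcm]
    exact le_min (hv _) (hv _)
  have hme : m.eval 1 = ov v h := by
    rw [hm, eval_finsetSum]
    simp only [eval_monomial, one_pow, mul_one]
    rfl
  have hV := hv.eval
  obtain ⟨t, ht0, ht1, ht⟩ : ∃ t : ℝ, 0 ≤ t ∧ t ≤ 1 ∧ t * m.eval 1 = c * v.eval 1 := by
    rcases (hv.ov_nonneg h).eq_or_lt with h0 | h0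
    · refine ⟨0, le_rfl, zero_le_one, ?_⟩
      rw [← h0] at hov
      rw [zero_mul]
      exact le_antisymm (mul_nonneg hc hV) hov
    · refine ⟨c * v.eval 1 / ov v h, by positivity, div_le_one_of_le₀ hov h0.le, ?_⟩
      rw [hme, div_mul_cancel₀ _ h0.ne']
  have hle : ∀ b, (C t * m * (C (1 / 2) * (1 + X ^ h))).coeff b ≤ v.coeff b := by
    intro b
    have e : C t * m * (C (1 / 2) * (1 + X ^ h)) = C (t / 2) * (m + m * X ^ h) := by
      rw [show t / 2 = t * (1 / 2) by ring, C_mul]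
      ring
    rw [e, coeff_C_mul, coeff_add, coeff_mul_X_pow', hcm]
    have h1 : min (v.coeff b) (v.coeff (b + h)) ≤ v.coeff b := min_le_left _ _
    have h2 : (if h ≤ b then m.coeff (b - h) else 0) ≤ v.coeff b := by
      split_ifs with hb
      · rw [hcm, Nat.sub_add_cancel hb]
        exact min_le_right _ _
      · exact hv b
    have h3 : 0 ≤ min (v.coeff b) (v.coeff (b + h)) + (if h ≤ b then m.coeff (b - h) else 0) := by
      refine add_nonneg (le_min (hv _) (hv _)) ?_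
      split_ifs
      · exact hmn _
      · exact le_rfl
    nlinarith
  refine ⟨C t * m, v - C t * m * (C (1 / 2) * (1 + X ^ h)), fun b => ?_, fun b => ?_, by ring, ?_, ?_⟩
  · rw [coeff_C_mul]
    exact mul_nonneg ht0 (hmn b)
  · rw [coeff_sub]
    exact sub_nonneg.2 (hle b)
  · rw [eval_mul, eval_C, ht]
  · rw [eval_sub, eval_mul, eval_mul, eval_C, ht]
    simp only [eval_mul, eval_C, eval_add, eval_one, eval_pow, eval_X, one_pow]
    ring

/-- the mean of `1 / (1 + N)`, `N` binomial -/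
theorem mean_inv {c : ℝ} (hc : 0 < c) (hc1 : c ≤ 1) (K : ℕ) :
    ∑ j ∈ range (K + 1), (K.choose j : ℝ) * (c ^ j * (1 - c) ^ (K - j) * (1 / (j + 1))) ≤
      1 / (c * (K + 1)) := by
  have hb := add_pow c (1 - c) (K + 1)
  rw [add_sub_cancel, one_pow, sum_range_succ'] at hb
  have h0 : ∀ j ∈ range (K + 1), (K.choose j : ℝ) * (c ^ j * (1 - c) ^ (K - j) * (1 / (j + 1))) =
      1 / (c * (K + 1)) * (c ^ (j + 1) * (1 - c) ^ (K + 1 - (j + 1)) * ((K + 1).choose (j + 1) : ℝ)) := by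
    intro j hj
    have h1 : ((K + 1) * K.choose j : ℝ) = (K + 1).choose (j + 1) * (j + 1) := by
      exact_mod_cast Nat.add_one_mul_choose_eq K j
    have h2 : ((K + 1).choose (j + 1) : ℝ) = (K + 1) * K.choose j / (j + 1) := by
      rw [eq_div_iff (by positivity)]
      exact h1.symm
    rw [h2, Nat.add_sub_add_right, pow_succ]
    field_simp
  rw [sum_congr rfl h0, ← mul_sum]
  have h3 : (0 : ℝ) ≤ c ^ 0 * (1 - c) ^ (K + 1 - 0) * ((K + 1).choose 0 : ℝ) := by
    have := sub_nonneg.2 hc1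
    positivity
  have h4 : ∑ j ∈ range (K + 1), c ^ (j + 1) * (1 - c) ^ (K + 1 - (j + 1)) * ((K + 1).choose (j + 1) : ℝ) ≤ 1 := by
    linarith
  calc 1 / (c * (K + 1)) * _ ≤ 1 / (c * (K + 1)) * 1 := mul_le_mul_of_nonneg_left h4 (by positivity)
    _ = _ := mul_one _

/-- the mean of `1 / √(1 + N)` -/
theorem mean_sqrt {c : ℝ} (hc : 0 < c) (hc1 : c ≤ 1) (K : ℕ) :
    ∑ j ∈ range (K + 1), (K.choose j : ℝ) * (c ^ j * (1 - c) ^ (K - j) * (1 / √(j + 1))) ≤
      1 / √(c * (K + 1)) := by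
  have hp := sub_nonneg.2 hc1
  have h1 : ∑ j ∈ range (K + 1), (K.choose j : ℝ) * (c ^ j * (1 - c) ^ (K - j)) = 1 := by
    have hb := add_pow c (1 - c) K
    rw [add_sub_cancel, one_pow] at hb
    refine Eq.trans ?_ hb.symm
    exact sum_congr rfl fun j _ => by ring
  set w : ℕ → ℝ := fun j => (K.choose j : ℝ) * (c ^ j * (1 - c) ^ (K - j)) with hw
  have hw0 : ∀ j, 0 ≤ w j := fun j => by
    rw [hw]
    positivity
  have hcs := Finset.sum_mul_sq_le_sq_mul_sq (range (K + 1)) (fun j => √(w j)) fun j => √(w j) * (1 / √((j : ℝ) + 1))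
  have e1 : ∀ j : ℕ, √(w j) * (√(w j) * (1 / √((j : ℝ) + 1))) = w j * (1 / √((j : ℝ) + 1)) := fun j => by
    rw [← mul_assoc, Real.mul_self_sqrt (hw0 j)]
  have e2 : ∀ j : ℕ, √(w j) ^ 2 = w j := fun j => Real.sq_sqrt (hw0 j)
  have e3 : ∀ j : ℕ, (√(w j) * (1 / √((j : ℝ) + 1))) ^ 2 = w j * (1 / ((j : ℝ) + 1)) := fun j => by
    have h0 : (0 : ℝ) ≤ (j : ℝ) + 1 := by positivity
    rw [mul_pow, Real.sq_sqrt (hw0 j), div_pow, one_pow, Real.sq_sqrt h0]
  simp only [e1, e2, e3] at hcs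
  have h2 : ∑ j ∈ range (K + 1), w j = 1 := h1
  have h3 : ∑ j ∈ range (K + 1), w j * (1 / ((j : ℝ) + 1)) ≤ 1 / (c * (K + 1)) := by
    refine le_trans (le_of_eq ?_) (mean_inv hc hc1 K)
    exact sum_congr rfl fun j _ => by rw [hw]; ring
  rw [h2, one_mul] at hcs
  have h4 : ∑ j ∈ range (K + 1), (K.choose j : ℝ) * (c ^ j * (1 - c) ^ (K - j) * (1 / √(j + 1))) =
      ∑ j ∈ range (K + 1), w j * (1 / √((j : ℝ) + 1)) :=
    sum_congr rfl fun j _ => by rw [hw]; ring
  rw [h4, ← Real.sqrt_one, ← Real.sqrt_div zero_le_one, Real.sqrt_one]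
  exact Real.le_sqrt_of_sq_le (hcs.trans h3)

/-- **Mineka's inequality** -/
theorem mineka {ι : Type*} (s : Finset ι) {v : ι → ℝ[X]} {h : ℕ} {c : ℝ} (hc : 0 < c) (hc1 : c ≤ 1)
    (hv : ∀ i ∈ s, Nn (v i)) (hov : ∀ i ∈ s, c * (v i).eval 1 ≤ ov (v i) h) :
    n1 ((1 - X ^ h) * ∏ i ∈ s, v i) ≤ 2 / √(c * (s.card + 1)) * ∏ i ∈ s, (v i).eval 1 := by
  classical
  have hsp : ∀ i : ι, ∃ ρ σ : ℝ[X], i ∈ s → (Nn ρ ∧ Nn σ ∧ v i = ρ * (C (1 / 2) * (1 + X ^ h)) + σ ∧
      ρ.eval 1 = c * (v i).eval 1 ∧ σ.eval 1 = (1 - c) * (v i).eval 1) := by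
    intro i
    by_cases hi : i ∈ s
    · obtain ⟨ρ, σ, h1⟩ := split (hv i hi) hc.le (hov i hi)
      exact ⟨ρ, σ, fun _ => h1⟩
    · exact ⟨0, 0, fun h => absurd h hi⟩
  choose ρ σ hsp using hsp
  have e1 : ∏ i ∈ s, v i = ∏ i ∈ s, (ρ i * (C (1 / 2) * (1 + X ^ h)) + σ i) :=
    prod_congr rfl fun i hi => (hsp i hi).2.2.1
  set W : ℝ := ∏ i ∈ s, (v i).eval 1 with hW
  have hW0 : 0 ≤ W := prod_nonneg fun i hi => (hv i hi).eval
  rw [e1, prod_add, mul_sum]
  refine (n1_sum _ _).trans ?_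
  have hterm : ∀ S ∈ s.powerset, n1 ((1 - X ^ h) * ((∏ i ∈ S, ρ i * (C (1 / 2) * (1 + X ^ h))) *
      ∏ i ∈ s \ S, σ i)) ≤ 2 * W * (c ^ S.card * (1 - c) ^ (s.card - S.card) * (1 / √(S.card + 1))) := by
    intro S hS
    rw [mem_powerset] at hS
    have e2 : (1 - X ^ h) * ((∏ i ∈ S, ρ i * (C (1 / 2) * (1 + X ^ h))) * ∏ i ∈ s \ S, σ i) =
        ((1 - X ^ h) * (C (1 / 2) * (1 + X ^ h)) ^ S.card) * ((∏ i ∈ S, ρ i) * ∏ i ∈ s \ S, σ i) := by
      rw [prod_mul_distrib, prod_const]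
      ring
    have hn : Nn ((∏ i ∈ S, ρ i) * ∏ i ∈ s \ S, σ i) :=
      (Nn.prod fun i hi => (hsp i (hS hi)).1).mul
        (Nn.prod fun i hi => (hsp i (mem_sdiff.1 hi).1).2.1)
    have e3 : n1 ((∏ i ∈ S, ρ i) * ∏ i ∈ s \ S, σ i) = c ^ S.card * (1 - c) ^ (s.card - S.card) * W := by
      rw [hn.n1, eval_mul, eval_prod, eval_prod, prod_congr rfl fun i hi => (hsp i (hS hi)).2.2.2.1,
        prod_congr (s₁ := s \ S) rfl fun i hi => (hsp i (mem_sdiff.1 hi).1).2.2.2.2,
        prod_mul_distrib, prod_mul_distrib, prod_const, prod_const, card_sdiff_of_subset hS, hW,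
        ← prod_sdiff hS]
      ring
    rw [e2]
    refine (n1_mul _ _).trans ?_
    rw [e3]
    have h5 : 0 ≤ c ^ S.card * (1 - c) ^ (s.card - S.card) * W := by
      have := sub_nonneg.2 hc1
      positivity
    refine (mul_le_mul_of_nonneg_right (n1_binom h S.card) h5).trans (le_of_eq ?_)
    ring
  refine (sum_le_sum hterm).trans ?_
  rw [← mul_sum]
  have e4 := sum_powerset_apply_card (fun j : ℕ => c ^ j * (1 - c) ^ (s.card - j) * (1 / √((j : ℝ) + 1))) (x := s)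
  rw [e4]
  have h6 := mean_sqrt hc hc1 s.card
  have e5 : ∑ m ∈ range (s.card + 1), s.card.choose m • (c ^ m * (1 - c) ^ (s.card - m) * (1 / √((m : ℝ) + 1))) =
      ∑ j ∈ range (s.card + 1), (s.card.choose j : ℝ) * (c ^ j * (1 - c) ^ (s.card - j) * (1 / √(j + 1))) :=
    sum_congr rfl fun j _ => by rw [nsmul_eq_mul]
  rw [e5]
  calc 2 * W * _ ≤ 2 * W * (1 / √(c * (s.card + 1))) := mul_le_mul_of_nonneg_left h6 (by positivity)
    _ = _ := by ring

/-! ### use -/

/-- **the overlap from a window**: `v ≥ u` at the points `a + 2 j`, `j < J`, steps `h = 2 d`, `2 d ≤ J` -/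
theorem ov_of_window {v : ℝ[X]} (hv : Nn v) {a J d : ℕ} {u : ℝ} (hu : 0 ≤ u)
    (hw : ∀ j < J, u ≤ v.coeff (a + 2 * j)) (hd : 2 * d ≤ J) : u * J / 2 ≤ ov v (2 * d) := by
  rcases hu.eq_or_lt with rfl | hu0
  · simp only [zero_mul, zero_div]
    exact hv.ov_nonneg _
  have hinj : Function.Injective fun j : ℕ => a + 2 * j := fun i j h => by
    have : a + 2 * i = a + 2 * j := h
    omega
  have hsub : (range (J - d)).map ⟨_, hinj⟩ ⊆ v.support := by
    intro b hb
    obtain ⟨j, hj, rfl⟩ := mem_map.1 hb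
    rw [mem_range] at hj
    rw [mem_support_iff]
    exact (hu0.trans_le (hw j (by omega))).ne'
  have h1 : ∑ b ∈ (range (J - d)).map ⟨_, hinj⟩, min (v.coeff b) (v.coeff (b + 2 * d)) ≤ ov v (2 * d) :=
    sum_le_sum_of_subset_of_nonneg hsub fun b _ _ => le_min (hv _) (hv _)
  refine le_trans ?_ h1
  rw [sum_map]
  have h2 : ∑ j ∈ range (J - d), u ≤ ∑ j ∈ range (J - d),
      min (v.coeff ((⟨fun j : ℕ => a + 2 * j, hinj⟩ : ℕ ↪ ℕ) j))
        (v.coeff ((⟨fun j : ℕ => a + 2 * j, hinj⟩ : ℕ ↪ ℕ) j + 2 * d)) := by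
    refine sum_le_sum fun j hj => ?_
    rw [mem_range] at hj
    show u ≤ min (v.coeff (a + 2 * j)) (v.coeff (a + 2 * j + 2 * d))
    refine le_min (hw j (by omega)) ?_
    have := hw (j + d) (by omega)
    rwa [show a + 2 * (j + d) = a + 2 * j + 2 * d by ring] at this
  refine le_trans ?_ h2
  rw [sum_const, card_range, nsmul_eq_mul]
  have h3 : (J : ℝ) / 2 ≤ ((J - d : ℕ) : ℝ) := by
    rw [Nat.cast_sub (by omega)]
    have : (2 : ℝ) * d ≤ J := by exact_mod_cast hd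
    linarith
  nlinarith

/-- the overlap of a polynomial with its truncation: only the coefficients matter -/
theorem coeff_mul_le {p q : ℝ[X]} {U : ℝ} (hU : ∀ b, |q.coeff b| ≤ U) (n : ℕ) : |(p * q).coeff n| ≤ n1 p * U := by
  have hU0 : 0 ≤ U := (abs_nonneg _).trans (hU 0)
  rw [coeff_mul]
  refine (abs_sum_le_sum_abs _ _).trans ?_
  rw [Finset.Nat.sum_antidiagonal_eq_sum_range_succ fun i j => |p.coeff i * q.coeff j|]
  calc ∑ i ∈ range n.succ, |p.coeff i * q.coeff (n - i)| ≤ ∑ i ∈ range n.succ, |p.coeff i| * U :=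
        sum_le_sum fun i _ => by
          rw [abs_mul]
          exact mul_le_mul_of_nonneg_left (hU _) (abs_nonneg _)
    _ ≤ ∑ i ∈ range n.succ ∪ p.support, |p.coeff i| * U :=
        sum_le_sum_of_subset_of_nonneg subset_union_left fun i _ _ => mul_nonneg (abs_nonneg _) hU0
    _ = n1 p * U := by
        rw [n1_eq (p := p) (s := range n.succ ∪ p.support) subset_union_right, sum_mul]

/-- **the pointwise form**: one more factor with small coefficients and a kernel -/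
theorem mineka_coeff {ι : Type*} (s : Finset ι) {v : ι → ℝ[X]} {h : ℕ} {c : ℝ} (hc : 0 < c) (hc1 : c ≤ 1)
    (hv : ∀ i ∈ s, Nn (v i)) (hov : ∀ i ∈ s, c * (v i).eval 1 ≤ ov (v i) h) {w : ℝ[X]} {U : ℝ}
    (hU : ∀ b, |w.coeff b| ≤ U) (n : ℕ) :
    |((1 - X ^ h) * (∏ i ∈ s, v i) * w).coeff n| ≤ 2 / √(c * (s.card + 1)) * (∏ i ∈ s, (v i).eval 1) * U :=
  (coeff_mul_le hU n).trans (mul_le_mul_of_nonneg_right (mineka s hc hc1 hv hov) ((abs_nonneg _).trans (hU 0)))

/-- **the pointwise form with a nonnegative kernel**: the difference of `∏ v_i * w * κ` at `n` and `n - h` -/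
theorem mineka_kernel {ι : Type*} (s : Finset ι) {v : ι → ℝ[X]} {h : ℕ} {c : ℝ} (hc : 0 < c) (hc1 : c ≤ 1)
    (hv : ∀ i ∈ s, Nn (v i)) (hov : ∀ i ∈ s, c * (v i).eval 1 ≤ ov (v i) h) {w : ℝ[X]} {U : ℝ}
    (hU : ∀ b, |w.coeff b| ≤ U) {κ : ℝ[X]} (hκ : Nn κ) (n : ℕ) :
    |((∏ i ∈ s, v i) * w * κ).coeff (n + h) - ((∏ i ∈ s, v i) * w * κ).coeff n| ≤
      2 / √(c * (s.card + 1)) * (∏ i ∈ s, (v i).eval 1) * U * κ.eval 1 := by
  have e : ((∏ i ∈ s, v i) * w * κ).coeff (n + h) - ((∏ i ∈ s, v i) * w * κ).coeff n =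
      (κ * ((1 - X ^ h) * (∏ i ∈ s, v i) * w)).coeff (n + h) := by
    have e1 : κ * ((1 - X ^ h) * (∏ i ∈ s, v i) * w) =
        (∏ i ∈ s, v i) * w * κ - (∏ i ∈ s, v i) * w * κ * X ^ h := by ring
    rw [e1, coeff_sub, coeff_mul_X_pow]
  rw [e]
  refine (coeff_mul_le (fun b => mineka_coeff s hc hc1 hv hov hU b) _).trans (le_of_eq ?_)
  rw [hκ.n1]
  ring

end SLOW

end
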